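import Pool.Agent.Work.MP_4eca4b_lc.Main

universe u

open Cardinal Pool.Agent.Work.MP_4eca4b_lc

theorem Pool.Agent.Results.MP_4eca4b_lc.Characterisation.result :
    ∀ κ : Cardinal.{u}, (∀ μ < κ, 2 ^ μ ≤ κ) →
      (InK κ ↔ ℵ₀ < κ ∧ (¬ κ.IsStrongLimit ∨ (κ.IsRegular ∧ SuslinTree κ))) :=
  fun _ h => inK_iff h
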