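import Pool.Agent.Work.MP_4eca4b_lc.DsMain

universe u

open Cardinal Pool.Agent.Work.MP_4eca4b_lc

theorem Pool.Agent.Results.MP_4eca4b_lc.DoubleSucc.result :
    ∀ μ : Cardinal.{u}, ℵ₀ ≤ μ → 2 ^ μ ≤ Order.succ (Order.succ μ) →
      InK (Order.succ (Order.succ μ)) :=
  fun _ h1 h2 => Ds.inK_succ_succ h1 h2
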