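import Pool.Agent.Work.MP_4eca4b_lc.Main

universe u

open Cardinal Pool.Agent.Work.MP_4eca4b_lc

theorem Pool.Agent.Results.MP_4eca4b_lc.Suslin.result :
    ∀ κ : Cardinal.{u}, κ.IsRegular → ℵ₁ < κ → SuslinTree κ → InK κ :=
  fun _ h1 h2 h3 => inK_of_suslinTree h1 h2 h3
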